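import Mathlib
import Pool.Agent.Helper18.Peb.Reg

set_option autoImplicit false

/-!
PB-6: the counts.
-/

namespace Pool.Agent.Helper53.PB

open Pool.Agent.Helper18.Peb

theorem PB6_card (p x d s t l : ℕ) (o : Option (Star p x)) :
    (Finset.univ.filter fun a : (skel p x d s t l).Vx => reg p x d s t l a = o).card =
      (∑ A : KV p x, if regK p x A = o then 1 else 0) +
      ∑ e : KE p x, if regE p x e = o then ((skel p x d s t l).len e - 1) else 0 := by
  rw [Finset.card_filter, Fintype.sum_sum_type, Fintype.sum_sigma]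
  congr 1
  refine Finset.sum_congr rfl fun e _ => ?_
  simp only [reg]
  split_ifs with h
  · simp
  · simp

theorem PB6_leg (p : ℕ) (i0 : Fin p) (s : ℕ) (hs : 1 ≤ s) :
    ∑ i : Fin p, ((if i0 = i then s else s + 1) - 1) = p * s - 1 := by
  have hp : 0 < p := i0.pos
  have h : ∀ i : Fin p, ((if i0 = i then s else s + 1) - 1) + (if i0 = i then 1 else 0) = s := by
    intro i
    split_ifs <;> omega
  have h2 : ∑ i : Fin p, ((if i0 = i then s else s + 1) - 1) + 1 = p * s := by
    have h3 : ∑ i : Fin p, (((if i0 = i then s else s + 1) - 1) + (if i0 = i then 1 else 0)) =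
        p * s := by
      rw [Finset.sum_congr rfl fun i _ => h i]
      simp
    rw [Finset.sum_add_distrib, Finset.sum_ite_eq] at h3
    simpa using h3
  omega

theorem card_star (x : ℕ) (σ : Star 1024 x) :
    (Finset.univ.filter fun a : (skel 1024 x 10 34 60 104).Vx =>
      reg 1024 x 10 34 60 104 a = some σ).card ≤ 69693 := by
  rw [PB6_card, sum_KV, sum_KE]
  simp only [regK, regE, skel, reduceCtorEq, if_false, Finset.sum_const_zero, Option.some.injEq]
  have e1 : ∑ τ : Star 1024 x, (if τ = σ then 1 else 0) = 1 := by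
    rw [Finset.sum_ite_eq']; simp
  have e2 : ∑ τ : Star 1024 x, (if τ = σ then 60 - 1 else 0) = 59 := by
    rw [Finset.sum_ite_eq']; simp
  have e3 : ∑ τ : Star 1024 x, ∑ i : Fin 1024,
      (if τ = σ then (if τ.1 = i then 34 else 34 + 1) - 1 else 0) = 1024 * 34 - 1 := by
    rw [Finset.sum_eq_single σ]
    · simp only [if_true]
      exact PB6_leg 1024 σ.1 34 (by norm_num)
    · intro τ _ h
      simp [h]
    · simp
  have e4 : ∑ τ : Star 1024 x, ∑ i : Fin 1024,
      (if τ = σ then (if τ.2.1 = i then 34 else 34 + 1) - 1 else 0) = 1024 * 34 - 1 := by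
    rw [Finset.sum_eq_single σ]
    · simp only [if_true]
      exact PB6_leg 1024 σ.2.1 34 (by norm_num)
    · intro τ _ h
      simp [h]
    · simp
  rw [e1, e2, e3, e4]
  norm_num

theorem card_core (x : ℕ) :
    (Finset.univ.filter fun a : (skel 1024 x 10 34 60 104).Vx =>
      reg 1024 x 10 34 60 104 a = none).card ≤ 213003 := by
  rw [PB6_card, sum_KV, sum_KE]
  simp only [regK, regE, skel, reduceCtorEq, if_false, if_true, Finset.sum_const_zero,
    Finset.sum_const, Finset.card_univ, Fintype.card_fin, smul_eq_mul]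
  norm_num

theorem card_row (p x : ℕ) (i : Fin p) :
    (Finset.univ.filter fun σ : Star p x => σ.1 = i).card = p * x := by
  rw [Finset.card_filter, Fintype.sum_prod_type]
  rw [Finset.sum_eq_single i]
  · simp
  · intro j _ h
    simp [h]
  · simp

theorem card_col (p x : ℕ) (i : Fin p) :
    (Finset.univ.filter fun σ : Star p x => σ.2.1 = i).card = p * x := by
  rw [Finset.card_filter, Fintype.sum_prod_type]
  have : ∀ j : Fin p, ∑ y : Fin p × Fin x, (if ((j, y) : Star p x).2.1 = i then 1 else 0) = x := by
    intro j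
    rw [Fintype.sum_prod_type, Finset.sum_eq_single i]
    · simp
    · intro k _ h
      simp [h]
    · simp
  rw [Finset.sum_congr rfl fun j _ => this j]
  simp

end Pool.Agent.Helper53.PB
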